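import Pool.Agent.N876.UV.Dec
import Pool.Agent.N876.TC.Gal

/-!
# The condition on the exponents
-/

set_option autoImplicit false

namespace Pool.Agent.N876.UV

open Finset Polynomial

theorem weight_conv' {ι : Type} {f N δ : ℕ} (hf : 0 < f) (hN : 0 < N) {d n : ι → ℕ}
    (hdN : ∀ i, d i ∣ N) (I : Finset ι) (A : ι → ℕ)
    (h : ∑ i ∈ I, (A i : ℚ) / (f * d i) + (δ : ℚ) / 2 < ∑ i ∈ I, ((n i : ℚ) / 2 + 1)) :
    2 * ∑ i ∈ I, (N / d i) * A i + f * N * δ < f * N * ∑ i ∈ I, (n i + 2) := by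
  have hf' : (0 : ℚ) < f := by exact_mod_cast hf
  have hN' : (0 : ℚ) < N := by exact_mod_cast hN
  have h0 : ∀ i, (((N / d i : ℕ) : ℚ)) * (A i : ℚ) = (f * N) * ((A i : ℚ) / (f * d i)) := by
    intro i
    have hd0 : (d i : ℚ) ≠ 0 := by
      have := Nat.pos_of_dvd_of_pos (hdN i) hN
      exact_mod_cast this.ne'
    rw [Nat.cast_div (hdN i) hd0]
    field_simp
  have h1 : ((2 * ∑ i ∈ I, (N / d i) * A i + f * N * δ : ℕ) : ℚ) =
      2 * f * N * (∑ i ∈ I, (A i : ℚ) / (f * d i) + (δ : ℚ) / 2) := by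
    rw [Nat.cast_add, Nat.cast_mul, Nat.cast_sum]
    have h00 : ∑ i ∈ I, (((N / d i) * A i : ℕ) : ℚ) =
        ∑ i ∈ I, (f * N) * ((A i : ℚ) / (f * d i)) :=
      Finset.sum_congr rfl fun i _ => by rw [Nat.cast_mul, h0]
    rw [h00, ← Finset.mul_sum]
    push_cast
    ring
  have h2 : ((f * N * ∑ i ∈ I, (n i + 2) : ℕ) : ℚ) =
      2 * f * N * ∑ i ∈ I, ((n i : ℚ) / 2 + 1) := by
    push_cast
    rw [mul_sum, mul_sum]
    exact sum_congr rfl fun i _ => by ring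
  have h3 : ((2 * ∑ i ∈ I, (N / d i) * A i + f * N * δ : ℕ) : ℚ) <
      ((f * N * ∑ i ∈ I, (n i + 2) : ℕ) : ℚ) := by
    rw [h1, h2]
    exact mul_lt_mul_of_pos_left h (by positivity)
  exact_mod_cast h3

/-- inverses modulo different primes -/
theorem exists_unit {ι : Type} [Fintype ι] [DecidableEq ι] {d : ι → ℕ}
    (hp : ∀ i, (d i).Prime) (hne : ∀ i i', i ≠ i' → d i ≠ d i') {I : Finset ι} {j v : ι → ℕ}
    (hj : ∀ i ∈ I, ¬ d i ∣ j i) (hv : ∀ i ∈ I, ¬ d i ∣ v i) :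
    ∃ u : ℕ, u.Coprime (∏ i, d i) ∧ ∀ i ∈ I, u * j i ≡ v i [MOD d i] := by
  have h1 : ∀ i, ∃ u : ℕ, u.Coprime (d i) ∧ (i ∈ I → u * j i ≡ v i [MOD d i]) := by
    intro i
    by_cases hi : i ∈ I
    · have hjc : (j i).Coprime (d i) := ((Nat.Prime.coprime_iff_not_dvd (hp i)).2 (hj i hi)).symm
      obtain ⟨j', -, hj'⟩ := Nat.exists_mul_mod_eq_one_of_coprime hjc (hp i).one_lt
      have hj1 : j i * j' ≡ 1 [MOD d i] := by
        show j i * j' % d i = 1 % d i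
        rw [hj', Nat.mod_eq_of_lt (hp i).one_lt]
      refine ⟨v i * j', ?_, fun _ => ?_⟩
      · refine ((Nat.Prime.coprime_iff_not_dvd (hp i)).2 ?_).symm
        intro h0
        rcases (Nat.Prime.dvd_mul (hp i)).1 h0 with h1 | h1
        · exact hv i hi h1
        · have h2 : j i * j' ≡ 0 [MOD d i] := (Nat.modEq_zero_iff_dvd).2 (h1.mul_left (j i))
          have h3 := hj1.symm.trans h2
          have h4 : d i ∣ 1 := (Nat.modEq_zero_iff_dvd).1 h3
          exact (hp i).one_lt.ne' (Nat.dvd_one.1 h4)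
      · have h4 := hj1.mul_left (v i)
        rw [mul_one] at h4
        rw [mul_assoc, mul_comm j' (j i)]
        exact h4
    · exact ⟨1, Nat.coprime_one_left _, fun h => absurd h hi⟩
  choose u hu hu2 using h1
  obtain ⟨w, hw1, hw2⟩ := Pool.Agent.N876.TC.exists_crt (fun i => (hp i).pos)
    (fun i i' hii => (Nat.coprime_primes (hp i) (hp i')).2 (hne i i' hii)) u hu
  exact ⟨w, hw1, fun i hi => ((hw2 i).mul_right _).trans (hu2 i hi)⟩

end Pool.Agent.N876.UV
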