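import Pool.Agent.N876.UV.Tot

/-!
# The decomposition of the Euler factors
-/

set_option autoImplicit false

namespace Pool.Agent.N876.UV

open Finset Polynomial

section dec

variable {ι : Type} [Fintype ι] [DecidableEq ι] {P : Type} {dg : P → ℕ} {Q : P → ℕ} {n d : ι → ℕ}
  {K : ι → Type} [∀ i, Fintype (K i)] {codim : ∀ i, K i → ℕ}
  {J : ι → P → Type} [∀ i v, Fintype (J i v)] {α : ∀ i v, J i v → ℂ} {ε : ∀ i v, J i v → ℕ}
  {JY : P → Type} [∀ v, Fintype (JY v)] {dY : ∀ v, JY v → ℕ} {β : ∀ v, JY v → ℂ}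

theorem tot_eq (hd : ∀ i, 0 < d i) (nn : ℕ) (v : P) :
    tot dg Q n codim α dY β nn v =
      ∏ j ∈ Fintype.piFinset (fun i => range (d i)), prt dg Q n d codim α ε dY β nn j v := by
  classical
  unfold tot prt fac
  rw [← prod_fiberwise_of_maps_to (t := Fintype.piFinset (fun i => range (d i)))
    (g := fun E : (∀ i, K i ⊕ J i v) × JY v => fun i => exq (ε i v) (E.1 i) % d i)
    (fun E _ => Fintype.mem_piFinset.2 fun i => mem_range.2 (Nat.mod_lt _ (hd i)))]
  refine prod_congr rfl fun j hj => ?_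
  refine prod_congr ?_ fun _ _ => rfl
  ext E
  rw [mem_filter, mem_fs, mem_fs]
  constructor
  · rintro ⟨h1, h2⟩
    refine ⟨h1, fun i => ?_⟩
    have h3 := congrFun h2 i
    have h4 := mem_range.1 (Fintype.mem_piFinset.1 hj i)
    show _ % _ = _ % _
    rw [Nat.mod_eq_of_lt h4]
    exact h3
  · rintro ⟨h1, h2⟩
    refine ⟨h1, ?_⟩
    funext i
    have h4 := mem_range.1 (Fintype.mem_piFinset.1 hj i)
    have h3 : exq (ε i v) (E.1 i) % d i = j i % d i := h2 i
    rw [Nat.mod_eq_of_lt h4] at h3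
    exact h3

theorem prt_zero {q : ℕ} (hQ : ∀ v, Q v = q ^ dg v) (hε : ∀ i v e, ¬ d i ∣ ε i v e) (nn : ℕ)
    (v : P) :
    prt dg Q n d codim α ε dY β nn 0 v =
      ∏ k ∈ fs (fun k : ∀ i, K i => 2 * ∑ i, codim i (k i) ≤ nn),
        (yp dg dY β (nn - 2 * ∑ i, codim i (k i)) v).comp
          (C ((q : ℂ) ^ (∑ i, codim i (k i))) * X) := by
  have h1 : prt dg Q n d codim α ε dY β nn 0 v =
      ∏ ky ∈ fs (fun ky : (∀ i, K i) × JY v => 2 * ∑ i, codim i (ky.1 i) + dY v ky.2 = nn),
        (1 - C ((Q v : ℂ) ^ (∑ i, codim i (ky.1 i)) * β v ky.2) * X ^ dg v) := by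
    unfold prt fac
    symm
    refine prod_bij (fun ky _ => (fun i => Sum.inl (ky.1 i), ky.2)) ?_ ?_ ?_ ?_
    · intro ky hky
      rw [mem_fs] at hky ⊢
      refine ⟨?_, fun i => ?_⟩
      · show ∑ i, 2 * codim i (ky.1 i) + dY v ky.2 = nn
        rw [← mul_sum]
        exact hky
      · rfl
    · intro ky _ ky' _ h
      have h2 := Prod.ext_iff.1 h
      refine Prod.ext ?_ h2.2
      funext i
      exact Sum.inl.inj (congrFun h2.1 i)
    · intro E hE
      obtain ⟨hE1, hE2⟩ := mem_fs.1 hE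
      have h3 : ∀ i, ∃ k : K i, E.1 i = Sum.inl k := by
        intro i
        rcases h4 : E.1 i with k | e
        · exact ⟨k, rfl⟩
        · exfalso
          have h5 := hE2 i
          rw [h4] at h5
          exact hε i v e ((Nat.modEq_zero_iff_dvd).1 h5)
      choose k hk using h3
      have hEk : E = (fun i => Sum.inl (k i), E.2) := Prod.ext (funext hk) rfl
      refine ⟨(k, E.2), ?_, hEk.symm⟩
      rw [mem_fs]
      rw [hEk] at hE1
      unfold dd at hE1
      rw [mul_sum]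
      exact hE1
    · intro ky _
      unfold ee
      congr 3
      show _ = (∏ i, ((Q v : ℂ) ^ codim i (ky.1 i))) * β v ky.2
      rw [prod_pow_eq_pow_sum]
  rw [h1]
  unfold fs
  rw [← univ_product_univ, prod_filter, prod_product, prod_filter]
  refine prod_congr rfl fun k _ => ?_
  dsimp only
  by_cases h2 : 2 * ∑ i, codim i (k i) ≤ nn
  · rw [if_pos h2]
    unfold yp fac fs
    rw [Polynomial.prod_comp, prod_filter]
    refine prod_congr rfl fun y _ => ?_
    by_cases h3 : 2 * ∑ i, codim i (k i) + dY v y = nn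
    · rw [if_pos h3, if_pos (by omega), sub_comp, one_comp, mul_comp, C_comp, X_pow_comp, mul_pow,
        ← C_pow, ← mul_assoc, ← C_mul, hQ v]
      push_cast
      congr 3
      rw [← pow_mul, ← pow_mul, mul_comm (dg v), mul_comm]
    · rw [if_neg h3, if_neg (by omega)]
  · rw [if_neg h2]
    refine prod_eq_one fun y _ => ?_
    rw [if_neg]
    intro h3
    exact h2 (by omega)

/-- the order of the total Euler product -/
theorem tot_order {q : ℕ} (hq : q ≠ 0) (hQ : ∀ v, Q v = q ^ dg v) (hd : ∀ i, 0 < d i)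
    (hε : ∀ i v e, ¬ d i ∣ ε i v e) {nn : ℕ} {t : ℂ}
    (hpart : ∀ j : ι → ℕ, (∃ i, ¬ d i ∣ j i) → OrderAt (prt dg Q n d codim α ε dY β nn j) t 0)
    {o : (∀ i, K i) → ℤ}
    (ho : ∀ k : ∀ i, K i, 2 * ∑ i, codim i (k i) ≤ nn →
      OrderAt (yp dg dY β (nn - 2 * ∑ i, codim i (k i))) ((q : ℂ) ^ (∑ i, codim i (k i)) * t) (o k)) :
    OrderAt (tot dg Q n codim α dY β nn) t
      (∑ k ∈ fs (fun k : ∀ i, K i => 2 * ∑ i, codim i (k i) ≤ nn), o k) := by
  have hq' : (q : ℂ) ≠ 0 := by exact_mod_cast hq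
  have h0 : OrderAt (prt dg Q n d codim α ε dY β nn 0) t
      (∑ k ∈ fs (fun k : ∀ i, K i => 2 * ∑ i, codim i (k i) ≤ nn), o k) := by
    have h1 : prt dg Q n d codim α ε dY β nn 0 = fun v =>
        ∏ k ∈ fs (fun k : ∀ i, K i => 2 * ∑ i, codim i (k i) ≤ nn),
        (yp dg dY β (nn - 2 * ∑ i, codim i (k i)) v).comp
          (C ((q : ℂ) ^ (∑ i, codim i (k i))) * X) := funext fun v => prt_zero hQ hε nn v
    rw [h1]
    refine orderAt_prod _ fun k hk => ?_
    exact orderAt_rescale (p := yp dg dY β (nn - 2 * ∑ i, codim i (k i))) (pow_ne_zero _ hq')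
      (ho k ((mem_fs (p := fun k : ∀ i, K i => 2 * ∑ i, codim i (k i) ≤ nn)).1 hk))
  have h1 : tot dg Q n codim α dY β nn = fun v =>
      ∏ j ∈ Fintype.piFinset (fun i => range (d i)), prt dg Q n d codim α ε dY β nn j v :=
    funext fun v => tot_eq hd nn v
  rw [h1]
  have h2 : (0 : ι → ℕ) ∈ Fintype.piFinset (fun i => range (d i)) :=
    Fintype.mem_piFinset.2 fun i => mem_range.2 (hd i)
  have h3 := orderAt_prod (P := P) (Fintype.piFinset (fun i => range (d i)))
    (p := fun j => prt dg Q n d codim α ε dY β nn j) (t := t)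
    (o := fun j => if j = 0 then
      (∑ k ∈ fs (fun k : ∀ i, K i => 2 * ∑ i, codim i (k i) ≤ nn), o k) else 0) (by
      intro j hj
      by_cases hj0 : j = 0
      · simp only [hj0, if_true]
        exact h0
      · simp only [hj0, if_false]
        refine hpart j ?_
        by_contra h4
        push Not at h4
        apply hj0
        funext i
        exact Nat.eq_zero_of_dvd_of_lt (h4 i) (mem_range.1 (Fintype.mem_piFinset.1 hj i)))
  rw [sum_ite_eq' _ _ _, if_pos h2] at h3
  exact h3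

end dec

end Pool.Agent.N876.UV
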