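import Pool.Agent.N876.UV.Ser
import Pool.Agent.N876.TC.Emb

/-!
# Power series with algebraic coefficients, small under an embedding
-/

set_option autoImplicit false

namespace Pool.Agent.N876.UV

open Finset Polynomial Pool.Agent.N876.TC

variable {K : Type*} [NormedField K] [IsUltrametricDist K]

/-- the coefficients are algebraic and small -/
def Bd (fe : AA →+* K) (r : ℝ) (F : PowerSeries ℂ) : Prop :=
  ∃ F' : PowerSeries AA, F'.map (algebraMap AA ℂ) = F ∧ ∀ n, ‖fe (PowerSeries.coeff n F')‖ ≤ r ^ n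

theorem Bd.one (fe : AA →+* K) {r : ℝ} (hr : 0 ≤ r) : Bd fe r 1 := by
  refine ⟨1, map_one _, fun n => ?_⟩
  rw [PowerSeries.coeff_one]
  split_ifs with h
  · rw [h, map_one, norm_one, pow_zero]
  · rw [map_zero, norm_zero]
    exact pow_nonneg hr _

theorem Bd.mul {fe : AA →+* K} {r : ℝ} (hr : 0 ≤ r) {F G : PowerSeries ℂ} (hF : Bd fe r F)
    (hG : Bd fe r G) : Bd fe r (F * G) := by
  obtain ⟨F', hF1, hF2⟩ := hF
  obtain ⟨G', hG1, hG2⟩ := hG
  refine ⟨F' * G', by rw [map_mul, hF1, hG1], fun n => ?_⟩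
  rw [PowerSeries.coeff_mul, map_sum]
  refine IsUltrametricDist.norm_sum_le_of_forall_le_of_nonneg (pow_nonneg hr _) fun x hx => ?_
  rw [map_mul, norm_mul, ← mem_antidiagonal.1 hx, pow_add]
  exact mul_le_mul (hF2 _) (hG2 _) (norm_nonneg _) (pow_nonneg hr _)

theorem Bd.prod {fe : AA →+* K} {r : ℝ} (hr : 0 ≤ r) {J : Type*} (s : Finset J)
    {F : J → PowerSeries ℂ} (hF : ∀ j ∈ s, Bd fe r (F j)) : Bd fe r (∏ j ∈ s, F j) := by
  classical
  induction s using Finset.induction_on with
  | empty => rw [prod_empty]; exact Bd.one fe hr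
  | insert a s ha ih =>
    rw [prod_insert ha]
    exact (hF a (mem_insert_self _ _)).mul hr (ih fun j hj => hF j (mem_insert_of_mem hj))

theorem Bd.lin (fe : AA →+* K) {r : ℝ} (hr : 0 ≤ r) (a : AA) {d : ℕ} (hd : 0 < d)
    (ha : ‖fe a‖ ≤ r ^ d) : Bd fe r ((1 - C (a : ℂ) * X ^ d : ℂ[X]) : PowerSeries ℂ) := by
  refine ⟨((1 - C a * X ^ d : AA[X]) : PowerSeries AA), ?_, fun n => ?_⟩
  · rw [← Polynomial.polynomial_map_coe]
    congr 1
    rw [Polynomial.map_sub, Polynomial.map_one, Polynomial.map_mul, Polynomial.map_pow, map_C,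
      map_X]
    rfl
  · rw [Polynomial.coeff_coe, coeff_sub, coeff_C_mul_X_pow, coeff_one]
    by_cases h1 : n = 0
    · rw [if_pos h1, if_neg (by omega), sub_zero, map_one, norm_one, h1, pow_zero]
    · rw [if_neg h1, zero_sub, map_neg, norm_neg]
      split_ifs with h2
      · rw [h2]
        exact ha
      · rw [map_zero, norm_zero]
        exact pow_nonneg hr _

/-- the limit of the Euler product -/
theorem Bd.euler {fe : AA →+* K} {r : ℝ} (hr : 0 ≤ r) {P : Type} {p : P → ℂ[X]}
    {L : PowerSeries ℂ} (hL : IsEuler p L) (hp : ∀ v, Bd fe r (p v : PowerSeries ℂ))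
    (hp0 : ∀ v, (p v).coeff 0 = 1) : Bd fe r L ∧ PowerSeries.coeff 0 L = 1 := by
  classical
  have hc : ∀ s : Finset P, PowerSeries.coeff 0 (∏ v ∈ s, (p v : PowerSeries ℂ)) = 1 := by
    intro s
    rw [PowerSeries.coeff_zero_eq_constantCoeff, map_prod]
    refine prod_eq_one fun v _ => ?_
    rw [← PowerSeries.coeff_zero_eq_constantCoeff_apply, Polynomial.coeff_coe, hp0]
  -- all coefficients
  have key1 : ∀ n, ∃ a : AA, (a : ℂ) = PowerSeries.coeff n L ∧ ‖fe a‖ ≤ r ^ n := by
    intro n
    induction n using Nat.strong_induction_on with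
    | _ n ih =>
      obtain ⟨s, hs⟩ := hL (n + 1)
      have h1 := hs s (Finset.Subset.refl s)
      rw [PowerSeries.X_pow_dvd_iff] at h1
      have h2 := h1 n (Nat.lt_succ_self n)
      rw [map_sub, sub_eq_zero, PowerSeries.coeff_mul] at h2
      obtain ⟨Q, hQ1, hQ2⟩ := Bd.prod hr s (F := fun v => (p v : PowerSeries ℂ)) fun v _ => hp v
      have hQ0 : PowerSeries.coeff 0 Q = 1 := by
        have h3 := hc s
        rw [← hQ1, PowerSeries.coeff_map] at h3
        have h4 : algebraMap AA ℂ (PowerSeries.coeff 0 Q) = algebraMap AA ℂ 1 := by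
          rw [h3, map_one]
        exact (algebraMap AA ℂ).injective h4
      -- the choice of the lower coefficients
      have ih' : ∀ m : ℕ, ∃ a : AA, m < n → (a : ℂ) = PowerSeries.coeff m L ∧ ‖fe a‖ ≤ r ^ m := by
        intro m
        by_cases hm : m < n
        · obtain ⟨a, ha⟩ := ih m hm
          exact ⟨a, fun _ => ha⟩
        · exact ⟨0, fun h => absurd h hm⟩
      choose b hb using ih'
      have h5 : ∑ x ∈ (antidiagonal n).erase (n, 0), PowerSeries.coeff x.1 L *
          PowerSeries.coeff x.2 (PowerSeries.map (algebraMap AA ℂ) Q) =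
          ((∑ x ∈ (antidiagonal n).erase (n, 0), b x.1 * PowerSeries.coeff x.2 Q : AA) : ℂ) := by
        rw [← IntermediateField.algebraMap_apply, map_sum]
        refine sum_congr rfl fun x hx => ?_
        have hx1 := ne_of_mem_erase hx
        have hx2 := mem_antidiagonal.1 (mem_of_mem_erase hx)
        have hx3 : x.1 < n := by
          rcases Nat.lt_or_ge x.1 n with h | h
          · exact h
          · exact absurd (Prod.ext (by omega : x.1 = n) (by omega : x.2 = 0)) hx1
        rw [map_mul, ← (hb x.1 hx3).1, PowerSeries.coeff_map]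
        rfl
      have hmem : (n, 0) ∈ antidiagonal n := mem_antidiagonal.2 (add_zero n)
      rw [← add_sum_erase _ _ hmem, ← hQ1, h5] at h2
      rw [PowerSeries.coeff_map, hQ0, map_one, mul_one, PowerSeries.coeff_one] at h2
      have h6 : ‖fe (∑ x ∈ (antidiagonal n).erase (n, 0), b x.1 * PowerSeries.coeff x.2 Q)‖ ≤
          r ^ n := by
        rw [map_sum]
        refine IsUltrametricDist.norm_sum_le_of_forall_le_of_nonneg (pow_nonneg hr _) fun x hx => ?_
        have hx1 := ne_of_mem_erase hx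
        have hx2 := mem_antidiagonal.1 (mem_of_mem_erase hx)
        have hx3 : x.1 < n := by
          rcases Nat.lt_or_ge x.1 n with h | h
          · exact h
          · exact absurd (Prod.ext (by omega : x.1 = n) (by omega : x.2 = 0)) hx1
        rw [map_mul, norm_mul, ← hx2, pow_add]
        exact mul_le_mul (hb x.1 hx3).2 (hQ2 _) (norm_nonneg _) (pow_nonneg hr _)
      rcases Nat.eq_zero_or_pos n with hn | hn
      · subst hn
        refine ⟨1, ?_, ?_⟩
        · rw [if_pos rfl] at h2
          have h7 : ((antidiagonal 0).erase ((0 : ℕ), (0 : ℕ))) = ∅ := rfl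
          rw [h7, sum_empty] at h2
          have h8 : ((0 : AA) : ℂ) = 0 := rfl
          rw [h8, add_zero] at h2
          exact h2.symm
        · rw [map_one, norm_one, pow_zero]
      · refine ⟨-∑ x ∈ (antidiagonal n).erase (n, 0), b x.1 * PowerSeries.coeff x.2 Q, ?_, ?_⟩
        · rw [if_neg hn.ne'] at h2
          rw [← IntermediateField.algebraMap_apply, map_neg]
          exact (eq_neg_of_add_eq_zero_left h2).symm
        · rw [map_neg, norm_neg]
          exact h6
  choose a ha1 ha2 using key1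
  refine ⟨⟨PowerSeries.mk a, ?_, fun n => ?_⟩, ?_⟩
  · ext n
    rw [PowerSeries.coeff_map, PowerSeries.coeff_mk]
    exact ha1 n
  · rw [PowerSeries.coeff_mk]
    exact ha2 n
  · obtain ⟨s, hs⟩ := hL 1
    have h1 := hs s (Finset.Subset.refl s)
    rw [PowerSeries.X_pow_dvd_iff] at h1
    have h2 := h1 0 one_pos
    rw [map_sub, sub_eq_zero, PowerSeries.coeff_mul] at h2
    rw [show antidiagonal 0 = {((0 : ℕ), (0 : ℕ))} from rfl, sum_singleton, hc, mul_one,
      PowerSeries.coeff_one, if_pos rfl] at h2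
    exact h2

/-- the image of a polynomial under a map of the coefficients -/
theorem exists_poly {F G : Type*} [Field F] [Field G] (f : F → G) (f0 : f 0 = 0) (B : F[X]) :
    ∃ B' : G[X], ∀ i, B'.coeff i = f (B.coeff i) := by
  classical
  refine ⟨∑ i ∈ B.support, monomial i (f (B.coeff i)), fun i => ?_⟩
  rw [finset_sum_coeff]
  simp only [coeff_monomial]
  rw [sum_ite_eq']
  split_ifs with h
  · rfl
  · rw [notMem_support_iff.1 h, f0]

/-- the quotient is a quotient of polynomials with algebraic coefficients -/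
theorem descent {L' : PowerSeries AA} {A B : ℂ[X]} (hB : B ≠ 0)
    (h : (B : PowerSeries ℂ) * L'.map (algebraMap AA ℂ) = A) :
    ∃ A' B' : AA[X], IsCoprime A' B' ∧ B' ≠ 0 ∧ (B' : PowerSeries AA) * L' = A' := by
  classical
  obtain ⟨i0, hi0⟩ : ∃ i, B.coeff i ≠ 0 := by
    by_contra h0
    push Not at h0
    exact hB (Polynomial.ext fun i => by rw [h0, coeff_zero])
  obtain ⟨π, hπ⟩ : ∃ π : Module.Dual AA ℂ, π (B.coeff i0) ≠ 0 := by
    by_contra h0
    push Not at h0
    exact hi0 ((Module.forall_dual_apply_eq_zero_iff AA (B.coeff i0)).1 h0)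
  obtain ⟨B1, hB1⟩ := exists_poly (fun x => π x) (map_zero π) B
  obtain ⟨A1, hA1⟩ := exists_poly (fun x => π x) (map_zero π) A
  have hB1' : B1 ≠ 0 := by
    intro h0
    apply hπ
    rw [← hB1 i0, h0, coeff_zero]
  have h1 : (B1 : PowerSeries AA) * L' = A1 := by
    ext1 k
    rw [PowerSeries.coeff_mul, Polynomial.coeff_coe, hA1, ← Polynomial.coeff_coe, ← h,
      PowerSeries.coeff_mul, map_sum]
    refine sum_congr rfl fun x _ => ?_
    rw [Polynomial.coeff_coe, Polynomial.coeff_coe, hB1, PowerSeries.coeff_map]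
    have h2 : B.coeff x.1 * (algebraMap AA ℂ) (PowerSeries.coeff x.2 L') =
        PowerSeries.coeff x.2 L' • B.coeff x.1 := by
      rw [Algebra.smul_def, mul_comm]
    rw [h2, map_smul, smul_eq_mul, mul_comm]
  have hg := gcd_ne_zero_of_right (a := A1) hB1'
  refine ⟨A1 / gcd A1 B1, B1 / gcd A1 B1, isCoprime_div_gcd_div_gcd hB1', ?_, ?_⟩
  · intro h0
    apply hB1'
    rw [← EuclideanDomain.mul_div_cancel' hg (gcd_dvd_right A1 B1), h0, mul_zero]
  · have h2 := EuclideanDomain.mul_div_cancel' hg (gcd_dvd_left A1 B1)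
    have h3 := EuclideanDomain.mul_div_cancel' hg (gcd_dvd_right A1 B1)
    have hg' : ((gcd A1 B1 : AA[X]) : PowerSeries AA) ≠ 0 := by
      intro h0
      exact hg (Polynomial.coe_injective AA (by rw [h0, Polynomial.coe_zero]))
    apply mul_left_cancel₀ hg'
    rw [← mul_assoc, ← Polynomial.coe_mul, ← Polynomial.coe_mul, h2, h3, h1]

/-- no zeros and no poles where the series is small -/
theorem order_zero {fe : AA →+* K} {r : ℝ} (hr : 0 ≤ r) {L : PowerSeries ℂ} (hL : Bd fe r L)
    (h0 : PowerSeries.coeff 0 L = 1) {A B : ℂ[X]} (hA : A ≠ 0) (hB : B ≠ 0)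
    (h : (B : PowerSeries ℂ) * L = A) {t : AA} (ht : r * ‖fe t‖ < 1) :
    A.rootMultiplicity (t : ℂ) = B.rootMultiplicity (t : ℂ) := by
  classical
  obtain ⟨L', hL1, hL2⟩ := hL
  rw [← hL1] at h
  obtain ⟨A', B', hco, hB', h1⟩ := descent hB h
  have h2 : ((B'.map fe : K[X]) : PowerSeries K) * L'.map fe = (A'.map fe : K[X]) := by
    rw [Polynomial.polynomial_map_coe, Polynomial.polynomial_map_coe, ← map_mul, h1]
  have hco' : IsCoprime (A'.map fe) (B'.map fe) := hco.map (mapRingHom fe)
  have h00 : PowerSeries.coeff 0 L' = 1 := by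
    apply (algebraMap AA ℂ).injective
    rw [← PowerSeries.coeff_map, hL1, h0, map_one]
  obtain ⟨h3, h4⟩ := key hco' h2 (by rw [PowerSeries.coeff_map, h00, map_one]) hr
    (fun n => by rw [PowerSeries.coeff_map]; exact hL2 n) ht
  rw [eval_map_apply] at h3 h4
  have h5 : A'.eval t ≠ 0 := fun h6 => h3 (by rw [h6, map_zero])
  have h6 : B'.eval t ≠ 0 := fun h6 => h4 (by rw [h6, map_zero])
  have h7 : ∀ Q : AA[X], Q.eval t ≠ 0 →
      (Q.map (algebraMap AA ℂ)).rootMultiplicity (t : ℂ) = 0 := by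
    intro Q hQ
    refine rootMultiplicity_eq_zero fun h8 => hQ ?_
    apply (algebraMap AA ℂ).injective
    rw [map_zero, ← eval_map_apply]
    exact h8
  have h8 : A * B'.map (algebraMap AA ℂ) = B * A'.map (algebraMap AA ℂ) := by
    apply Polynomial.coe_injective ℂ
    rw [Polynomial.coe_mul, Polynomial.coe_mul, Polynomial.polynomial_map_coe,
      Polynomial.polynomial_map_coe, ← h1, map_mul, ← h]
    ring
  have hB2 : B'.map (algebraMap AA ℂ) ≠ 0 :=
    (Polynomial.map_ne_zero_iff (algebraMap AA ℂ).injective).2 hB'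
  have hA2 : A'.map (algebraMap AA ℂ) ≠ 0 := by
    intro h9
    rw [h9, mul_zero] at h8
    exact mul_ne_zero hA hB2 h8
  have h9 := congrArg (Polynomial.rootMultiplicity (t : ℂ)) h8
  rw [rootMultiplicity_mul (mul_ne_zero hA hB2), rootMultiplicity_mul (mul_ne_zero hB hA2),
    h7 _ h5, h7 _ h6, add_zero, add_zero] at h9
  exact h9

end Pool.Agent.N876.UV
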