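import Pool.Agent.N876.UV.Spc

/-!
# The choice of the embedding
-/

set_option autoImplicit false

namespace Pool.Agent.N876.UV

open Finset Polynomial Pool.Agent.N876.TC Pool.Agent.W528.HA Pool.Agent.W528.HB

/-- the condition on the exponents, for one set of indices -/
def SmallI {ι : Type} (c f N δ : ℕ) (d n s : ι → ℕ) (a : ∀ i, Fin (s i) → ℕ) (I : Finset ι) :
    Prop :=
  ∀ j : ι → ℕ, (∀ i ∈ I, ¬ d i ∣ j i) →
    ∃ u : ℕ, u.Coprime N ∧
      2 * ∑ i ∈ I, (N / d i) * ∑ k, ∑ t ∈ range f, (u * j i * a i k * c ^ t) % d i + f * N * δ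
        < f * N * ∑ i ∈ I, (n i + 2)

theorem irr_bot {N : ℕ} (hN : 0 < N) :
    Irreducible (cyclotomic N (⊥ : IntermediateField ℚ ℂ)) := by
  have h1 := cyclotomic.irreducible_rat hN
  have h2 := (MulEquiv.irreducible_iff
    (Polynomial.mapEquiv ((IntermediateField.botEquiv ℚ ℂ).symm : ℚ ≃+* (⊥ : IntermediateField ℚ ℂ)))
    (x := cyclotomic N ℚ)).2 h1
  have h3 : (Polynomial.mapEquiv
      ((IntermediateField.botEquiv ℚ ℂ).symm : ℚ ≃+* (⊥ : IntermediateField ℚ ℂ)))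
      (cyclotomic N ℚ) = cyclotomic N (⊥ : IntermediateField ℚ ℂ) := by
    rw [Polynomial.mapEquiv_apply, map_cyclotomic]
  rwa [h3] at h2

variable {c : ℕ} [Fact c.Prime]

theorem exists_fe {ι : Type} {N δ f : ℕ} (hN : 0 < N) {d n s : ι → ℕ} (hd0 : ∀ i, 0 < d i)
    (hdN : ∀ i, d i ∣ N) {a : ∀ i, Fin (s i) → ℕ} {I : Finset ι}
    (hsmall : SmallI c f N δ d n s a I) {Ω : ι → PadicAlgCl c}
    (hΩ : ∀ i, IsPrimitiveRoot (Ω i) (d i)) (j : ι → ℕ) (hj : ∀ i ∈ I, ¬ d i ∣ j i) :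
    ∃ (fe : AA →+* PadicAlgCl c) (j' : ι → ℕ),
      (∀ i ∈ I, ¬ d i ∣ j' i ∧ fe (mu (hd0 i) (j i)) = Ω i ^ j' i) ∧
      2 * ∑ i ∈ I, (N / d i) * ∑ k, ∑ t ∈ range f, (j' i * a i k * c ^ t) % d i + f * N * δ
        < f * N * ∑ i ∈ I, (n i + 2) := by
  classical
  have hbot : (⊥ : IntermediateField ℚ ℂ) ≤ AA := bot_le
  obtain ⟨fe⟩ : Nonempty (AA →+* PadicAlgCl c) := by
    have : Algebra.IsAlgebraic ℚ AA := algebraicClosure.isAlgebraic ℚ ℂ
    exact ⟨((IsAlgClosed.lift : AA →ₐ[ℚ] PadicAlgCl c) : AA →+* PadicAlgCl c)⟩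
  have hmu : ∀ i, mu (hd0 i) (j i) ^ d i = 1 := by
    intro i
    apply Subtype.ext
    push_cast
    rw [mu_coe, inv_pow, ← pow_mul, mul_comm, pow_mul, (th_prim (hd0 i)).pow_eq_one, one_pow,
      inv_one]
  have hmu1 : ∀ i ∈ I, mu (hd0 i) (j i) ≠ 1 := by
    intro i hi h0
    have h1 := congrArg (Subtype.val) h0
    rw [mu_coe] at h1
    have h2 : th (d i) ^ j i = 1 := inv_eq_one.1 h1
    exact hj i hi (((th_prim (hd0 i)).pow_eq_one_iff_dvd _).1 h2)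
  -- the exponents
  have hj2 : ∀ i, ∃ j0 : ℕ, fe (mu (hd0 i) (j i)) = Ω i ^ j0 := by
    intro i
    have : NeZero (d i) := ⟨(hd0 i).ne'⟩
    obtain ⟨j0, _, hj0⟩ := (hΩ i).eq_pow_of_pow_eq_one (ξ := fe (mu (hd0 i) (j i)))
      (by rw [← map_pow, hmu, map_one])
    exact ⟨j0, hj0.symm⟩
  choose j0 hj0 using hj2
  have hj1 : ∀ i ∈ I, ¬ d i ∣ j0 i := by
    intro i hi h0
    apply hmu1 i hi
    apply fe.injective
    rw [hj0, map_one]
    exact ((hΩ i).pow_eq_one_iff_dvd _).mpr h0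
  obtain ⟨u, hu, hlt⟩ := hsmall j0 hj1
  set ζ : AA := ⟨th N, th_mem hN⟩ with hζdef
  have hζ : IsPrimitiveRoot ζ N :=
    IsPrimitiveRoot.of_map_of_injective (f := algebraMap AA ℂ) (th_prim hN)
      (algebraMap AA ℂ).injective
  obtain ⟨fe', _, hfe2⟩ := emb hbot hN (irr_bot hN) fe hζ hu
  refine ⟨fe', fun i => u * j0 i, ?_, hlt⟩
  intro i hi
  refine ⟨?_, ?_⟩
  · intro h0
    have h1 : (d i).Coprime u := (Nat.Coprime.coprime_dvd_right (hdN i) hu).symm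
    exact hj1 i hi (h1.dvd_of_dvd_mul_left h0)
  · have : NeZero N := ⟨hN.ne'⟩
    obtain ⟨t, _, ht⟩ := hζ.eq_pow_of_pow_eq_one (ξ := mu (hd0 i) (j i)) (by
      obtain ⟨v, hv⟩ := hdN i
      rw [hv, pow_mul, hmu, one_pow])
    have h1 : fe' (mu (hd0 i) (j i)) = fe (mu (hd0 i) (j i)) ^ u := by
      rw [← ht, map_pow, map_pow, hfe2, ← pow_mul, ← pow_mul, mul_comm]
    rw [h1, hj0 i, ← pow_mul, mul_comm]

theorem norm_int_le {y : PadicAlgCl c} (hy : IsIntegral ℤ y) : ‖y‖ ≤ 1 := by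
  by_contra hcon
  push Not at hcon
  obtain ⟨p, hp, hp0⟩ := hy
  have hn : p.natDegree ≠ 0 := by
    intro h0
    have h1 : p = 1 := hp.natDegree_eq_zero.1 h0
    rw [h1, eval₂_one] at hp0
    exact one_ne_zero hp0
  have h1 : y ^ p.natDegree = -∑ i ∈ range p.natDegree, (p.coeff i : PadicAlgCl c) * y ^ i := by
    rw [eval₂_eq_sum_range, Finset.sum_range_succ, hp.coeff_natDegree, map_one, one_mul] at hp0
    rw [eq_neg_iff_add_eq_zero, add_comm]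
    exact hp0
  have h2 : ‖∑ i ∈ range p.natDegree, (p.coeff i : PadicAlgCl c) * y ^ i‖ ≤
      ‖y‖ ^ (p.natDegree - 1) := by
    refine IsUltrametricDist.norm_sum_le_of_forall_le_of_nonneg (pow_nonneg (norm_nonneg _) _)
      fun i hi => ?_
    rw [mem_range] at hi
    have h3 : ‖(p.coeff i : PadicAlgCl c)‖ ≤ 1 := by
      have h4 : algebraMap ℚ_[c] (PadicAlgCl c) ((p.coeff i : ℤ) : ℚ_[c]) =
        ((p.coeff i : ℤ) : PadicAlgCl c) := map_intCast _ _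
      rw [← h4, PadicAlgCl.norm_extends]
      exact Padic.norm_int_le_one _
    rw [norm_mul, norm_pow]
    refine (mul_le_of_le_one_left (pow_nonneg (norm_nonneg _) _) h3).trans ?_
    exact pow_le_pow_right₀ hcon.le (by omega)
  have h3 := congrArg norm h1
  rw [norm_neg, norm_pow] at h3
  rw [← h3] at h2
  have h4 : ‖y‖ ^ (p.natDegree - 1) < ‖y‖ ^ p.natDegree := pow_lt_pow_right₀ hcon (by omega)
  exact absurd h2 (not_le.2 h4)

end Pool.Agent.N876.UV
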