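import Pool.Agent.N876.UV.Emb

/-!
# The estimate of the Frobenius eigenvalues of a product at a point
-/

set_option autoImplicit false

namespace Pool.Agent.N876.UV

open Finset Polynomial Pool.Agent.N876.TC Pool.Agent.W528.HA Pool.Agent.W528.HB

variable {c : ℕ} [Fact c.Prime]

/-- one factor -/
theorem est_one {N : ℕ} (hN : 2 ≤ N) (hN0 : 0 < N) (κ : Type) [Field κ] [Fintype κ] [CharP κ c]
    {f : ℕ} (hf : Fintype.card κ = c ^ f) {z : κ} (hz : IsPrimitiveRoot z N)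
    {k : Type} [Field k] [IsAlgClosed k] [CharP k c] {R : Subring (PadicAlgCl c)} {res : R →+* k}
    (hR : IsRes c R res) (eκ : κ →+* k) {Ω : PadicAlgCl c} (hΩ : IsPrimitiveRoot Ω N)
    (hΩz : ∃ h : Ω ∈ R, res ⟨Ω, h⟩ = eκ z)
    (κv : Type) [Field κv] [Fintype κv] [Algebra κ κv] {dv : ℕ}
    (hdv : Module.finrank κ κv = dv)
    {s n : ℕ} (l : Fin s → Fin (n + 1) → κv) (a : Fin s → ℕ) (ha : ∀ i, (a i).Coprime N)
    {J : Type} [Fintype J] {α : J → ℂ} {ε : J → ℕ}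
    (h : IsSpec N l a (algebraMap κ κv z) α ε) {j0 : ℕ}
    (hj0 : ¬ N ∣ j0) {e : J} (he : ε e ≡ j0 [MOD N]) (fe : AA →+* PadicAlgCl c) {j : ℕ}
    (hj : ¬ N ∣ j) (hfe : fe (mu hN0 j0) = Ω ^ j) :
    ∃ hx : α e ∈ AA, ‖fe ⟨α e, hx⟩‖ ^ N
            * ‖((c : ℕ) : PadicAlgCl c)‖ ^ (dv * ∑ i, ∑ t ∈ range f, (j * a i * c ^ t) % N)
          ≤ ‖((c : ℕ) : PadicAlgCl c)‖ ^ (dv * (f * (n + 1) * N)) := by
  have hf0 : 0 < f := by
    rcases Nat.eq_zero_or_pos f with h | h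
    · rw [h, pow_zero] at hf
      have := Fintype.one_lt_card (α := κ)
      omega
    · exact h
  have hc1 : 1 ≤ c := (Fact.out : c.Prime).one_lt.le
  have hNf : N ∣ c ^ f - 1 := by
    rw [← hf]
    exact dvd_card_of_root hz (by omega)
  have : CharP κv c := charP_of_injective_algebraMap (algebraMap κ κv).injective c
  have hcard : Fintype.card κv = c ^ (f * dv) := by
    rw [pow_mul, ← hf, ← hdv]
    exact Module.card_eq_pow_finrank
  obtain ⟨ev, hev⟩ : ∃ ev : κv →+* k, ∀ y : κ, ev (algebraMap κ κv y) = eκ y := by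
    letI : Algebra κ k := eκ.toAlgebra
    have : Module.Finite κ κv := .of_finite
    exact ⟨((IsAlgClosed.lift : κv →ₐ[κ] k) : κv →+* k), fun y =>
      (IsAlgClosed.lift : κv →ₐ[κ] k).commutes y⟩
  have hzv : IsPrimitiveRoot (algebraMap κ κv z) N :=
    hz.map_of_injective (algebraMap κ κv).injective
  obtain ⟨hΩR, hΩz'⟩ := hΩz
  obtain ⟨hx, hx2⟩ := spec_slope hN κv hcard hzv hR ev hΩ ⟨hΩR, by rw [hΩz', hev]⟩ l a ha h hj0 he
    hN0
  refine ⟨hx, ?_⟩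
  have h1 := hx2 fe j hj hfe
  have h2 : ∑ i, ∑ t ∈ range (f * dv), (j * a i * c ^ t) % N =
      dv * ∑ i, ∑ t ∈ range f, (j * a i * c ^ t) % N := by
    rw [mul_sum]
    exact sum_congr rfl fun i _ => sum_period (by omega) hNf hc1 _ _
  rw [h2] at h1
  refine h1.trans (le_of_eq ?_)
  congr 1
  ring

/-- the inequality of real numbers -/
theorem arith {ι : Type} [Fintype ι] {ρ : ℝ} (hρ0 : 0 < ρ) (hρ1 : ρ < 1) {N dv f δ w nn dY l e : ℕ}
    (hN : 0 < N) (I : ι → Prop) [DecidablePred I] {x : ι → ℝ} (hx0 : ∀ i, 0 ≤ x i)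
    {Bi Ti Di Ni : ι → ℕ} (hx : ∀ i, x i ^ N * ρ ^ (dv * Bi i) ≤ ρ ^ (dv * (f * N * Ti i)))
    (hT : ∀ i, 2 * Ti i = Di i + Ni i) {y : ℝ} (hy0 : 0 ≤ y) (hy : y ≤ ρ ^ (dv * (f * (l - dY))))
    (hdeg : ∑ i, Di i + l = nn) (hw : 2 * w ≤ nn + e) (hδ : δ = dY + e)
    (hlt : 2 * ∑ i, Bi i + f * N * δ < f * N * ∑ i, Ni i) :
    ((∏ i, x i) * y) ^ (2 * N) ≤ (ρ ^ (2 * (f * N * w) + 1)) ^ dv := by
  set P := ∏ i, x i with hP
  have hP0 : 0 ≤ P := prod_nonneg fun i _ => hx0 i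
  have h1 : P ^ N * ρ ^ (dv * ∑ i, Bi i) ≤ ρ ^ (dv * (f * N * ∑ i, Ti i)) := by
    rw [hP, ← prod_pow, mul_sum, mul_sum, mul_sum, ← prod_pow_eq_pow_sum, ← prod_pow_eq_pow_sum,
      ← prod_mul_distrib]
    exact prod_le_prod (fun i _ => mul_nonneg (pow_nonneg (hx0 i) _) (pow_nonneg hρ0.le _))
      fun i _ => hx i
  have h2 : y ^ N ≤ ρ ^ (dv * (f * N * (l - dY))) := by
    refine (pow_le_pow_left₀ hy0 hy N).trans (le_of_eq ?_)
    rw [← pow_mul]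
    congr 1
    ring
  have h3 : (P * y) ^ N * ρ ^ (dv * ∑ i, Bi i) ≤ ρ ^ (dv * (f * N * (∑ i, Ti i + (l - dY)))) := by
    have h4 := mul_le_mul h1 h2 (pow_nonneg hy0 _) (pow_nonneg hρ0.le _)
    rw [← pow_add] at h4
    refine le_trans (le_of_eq ?_) (h4.trans (le_of_eq ?_))
    · rw [mul_pow]
      ring
    · congr 1
      ring
  have h4 : ((P * y) ^ (2 * N)) * ρ ^ (dv * (2 * ∑ i, Bi i)) ≤
      ρ ^ (dv * (f * N * (2 * ∑ i, Ti i + 2 * (l - dY)))) := by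
    have h5 := pow_le_pow_left₀ (mul_nonneg (pow_nonneg (mul_nonneg hP0 hy0) _)
      (pow_nonneg hρ0.le _)) h3 2
    rw [mul_pow, ← pow_mul, ← pow_mul, ← pow_mul] at h5
    refine le_trans (le_of_eq ?_) (h5.trans (le_of_eq ?_))
    · congr 2
      · ring
      · ring
    · congr 1
      ring
  have h5 : 2 * ∑ i, Ti i = ∑ i, Di i + ∑ i, Ni i := by
    rw [mul_sum, ← sum_add_distrib]
    exact sum_congr rfl fun i _ => hT i
  have h6 : 2 * (f * N * w) + 1 + 2 * ∑ i, Bi i ≤ f * N * (2 * ∑ i, Ti i + 2 * (l - dY)) := by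
    have h7 : 2 * w + ∑ i, Ni i ≤ (2 * ∑ i, Ti i + 2 * (l - dY)) + δ := by omega
    have h8 := Nat.mul_le_mul_left (f * N) h7
    have h9 : f * N * (2 * w + ∑ i, Ni i) = 2 * (f * N * w) + f * N * ∑ i, Ni i := by ring
    have h10 : f * N * (2 * ∑ i, Ti i + 2 * (l - dY) + δ) =
        f * N * (2 * ∑ i, Ti i + 2 * (l - dY)) + f * N * δ := by ring
    rw [h9, h10] at h8
    omega
  have h7 : ρ ^ (dv * (f * N * (2 * ∑ i, Ti i + 2 * (l - dY)))) ≤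
      (ρ ^ (2 * (f * N * w) + 1)) ^ dv * ρ ^ (dv * (2 * ∑ i, Bi i)) := by
    rw [← pow_mul, ← pow_add]
    refine pow_le_pow_of_le_one hρ0.le hρ1.le ?_
    have h8 := Nat.mul_le_mul_left dv h6
    refine le_trans (le_of_eq ?_) h8
    ring
  exact le_of_mul_le_mul_right (h4.trans h7) (pow_pos hρ0 _)

end Pool.Agent.N876.UV
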