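import Pool.Agent.N876.UV.Est

/-!
# Families: the isotypic parts have no zeros and poles
-/

set_option autoImplicit false

namespace Pool.Agent.N876.UV

open Finset Polynomial Pool.Agent.N876.TC Pool.Agent.W528.HA Pool.Agent.W528.HB

open Classical in
/-- the finset of the elements with the property `p` -/
noncomputable def fs {J : Type} [Fintype J] (p : J → Prop) : Finset J := univ.filter p

open Classical in
theorem mem_fs {J : Type} [Fintype J] {p : J → Prop} {e : J} : e ∈ fs p ↔ p e := by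
  unfold fs
  rw [mem_filter]
  exact ⟨fun h => h.2, fun h => ⟨mem_univ _, h⟩⟩

/-- a product of linear factors -/
noncomputable def fac {J : Type} [Fintype J] (p : J → Prop) (b : J → ℂ) (d : ℕ) : ℂ[X] :=
  ∏ e ∈ fs p, (1 - C (b e) * X ^ d)

/-- the eigenvalue -/
noncomputable def eg {K J : Type} (Q : ℕ) (codim : K → ℕ) (α : J → ℂ) : K ⊕ J → ℂ :=
  Sum.elim (fun k => (Q : ℂ) ^ codim k) α

/-- the degree -/
def dgr {K J : Type} (codim : K → ℕ) (n : ℕ) : K ⊕ J → ℕ :=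
  Sum.elim (fun k => 2 * codim k) (fun _ => n)

/-- the exponent -/
def exq {K J : Type} (ε : J → ℕ) : K ⊕ J → ℕ := Sum.elim (fun _ => 0) ε

theorem fac_coeff_zero {J : Type} [Fintype J] (p : J → Prop) (b : J → ℂ) {d : ℕ} (hd : 0 < d) :
    (fac p b d).coeff 0 = 1 := by
  classical
  unfold fac
  rw [coeff_zero_eq_eval_zero, eval_prod]
  refine prod_eq_one fun e _ => ?_
  rw [eval_sub, eval_one, eval_mul, eval_C, eval_pow, eval_X, zero_pow hd.ne', mul_zero, sub_zero]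

theorem fac_coe {J : Type} [Fintype J] (p : J → Prop) (b : J → ℂ) (d : ℕ) :
    (fac p b d : PowerSeries ℂ) =
      ∏ e ∈ fs p, ((1 - C (b e) * X ^ d : ℂ[X]) : PowerSeries ℂ) := by
  unfold fac
  exact map_prod (Polynomial.coeToPowerSeries.ringHom (R := ℂ)) _ _

variable {c : ℕ} [Fact c.Prime]

section point

variable {ι : Type} [Fintype ι]

theorem prod_mem_AA {x : ι → ℂ} (h : ∀ i, x i ∈ AA) : ∏ i, x i ∈ AA :=
  prod_mem fun i _ => h i

/-- the estimate for the eigenvalues of the product -/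
theorem est_point {κ : Type} [Field κ] [Fintype κ] [CharP κ c]
    {f : ℕ} (hf : Fintype.card κ = c ^ f) {N : ℕ} (hN : 0 < N) {d n s : ι → ℕ}
    (hd : ∀ i, 2 ≤ d i) (hd0 : ∀ i, 0 < d i) (hdN : ∀ i, d i ∣ N) {a : ∀ i, Fin (s i) → ℕ}
    (ha : ∀ i k, (a i k).Coprime (d i)) {z : ι → κ} (hz : ∀ i, IsPrimitiveRoot (z i) (d i))
    {k : Type} [Field k] [IsAlgClosed k] [CharP k c] {R : Subring (PadicAlgCl c)} {res : R →+* k}
    (hR : IsRes c R res) (eκ : κ →+* k) {Ω : ι → PadicAlgCl c}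
    (hΩ : ∀ i, IsPrimitiveRoot (Ω i) (d i))
    (hΩz : ∀ i, ∃ h : Ω i ∈ R, res ⟨Ω i, h⟩ = eκ (z i))
    (κv : Type) [Field κv] [Fintype κv] [Algebra κ κv] {dv : ℕ}
    (hdv : Module.finrank κ κv = dv)
    (l : ∀ i, Fin (s i) → Fin (n i + 1) → κv)
    {K : ι → Type} {codim : ∀ i, K i → ℕ}
    {J : ι → Type} [∀ i, Fintype (J i)] {α : ∀ i, J i → ℂ} {ε : ∀ i, J i → ℕ}
    (hε : ∀ i e, ¬ d i ∣ ε i e)
    (hspec : ∀ i, IsSpec (d i) (l i) (a i) (algebraMap κ κv (z i)) (α i) (ε i))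
    {β : ℂ} {dY D : ℕ} (hY : IsIntegral ℤ (β / (Fintype.card κv : ℂ) ^ (dY - D)))
    {e0 δ : ℕ} (hδ : δ = D + e0) {I : Finset ι} {j : ι → ℕ} (hj : ∀ i, d i ∣ j i ↔ i ∉ I)
    {fe : AA →+* PadicAlgCl c} {j' : ι → ℕ}
    (hj' : ∀ i ∈ I, ¬ d i ∣ j' i ∧ fe (mu (hd0 i) (j i)) = Ω i ^ j' i)
    (hlt : 2 * ∑ i ∈ I, (N / d i) * ∑ k, ∑ t ∈ range f, (j' i * a i k * c ^ t) % d i + f * N * δ
        < f * N * ∑ i ∈ I, (n i + 2))
    {nn w : ℕ} (hw : 2 * w ≤ nn + e0) (e : ∀ i, K i ⊕ J i)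
    (hdeg : ∑ i, dgr (codim i) (n i) (e i) + dY = nn)
    (hex : ∀ i, exq (ε i) (e i) ≡ j i [MOD d i]) :
    ∃ x : AA, (x : ℂ) = (∏ i, eg (Fintype.card κv) (codim i) (α i) (e i)) * β ∧
      ‖fe x‖ ^ (2 * N) ≤ (‖((c : ℕ) : PadicAlgCl c)‖ ^ (2 * (f * N * w) + 1)) ^ dv := by
  classical
  set ρ := ‖((c : ℕ) : PadicAlgCl c)‖ with hρ
  have hρ0 : 0 < ρ := norm_c_pos
  have hρ1 : ρ < 1 := norm_c_lt
  have hcard : Fintype.card κv = c ^ (f * dv) := by
    rw [pow_mul, ← hf, ← hdv]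
    exact Module.card_eq_pow_finrank
  have hQ : ‖((Fintype.card κv : ℕ) : PadicAlgCl c)‖ = ρ ^ (f * dv) := by
    rw [hcard]
    push_cast
    rw [norm_pow]
  -- the factors
  set Bi : ι → ℕ := fun i => if i ∈ I then
    (N / d i) * ∑ k, ∑ t ∈ range f, (j' i * a i k * c ^ t) % d i else 0 with hBi
  set Ni : ι → ℕ := fun i => if i ∈ I then n i + 2 else 0 with hNi
  have hfac : ∀ i, ∃ (x : AA) (T : ℕ), (x : ℂ) = eg (Fintype.card κv) (codim i) (α i) (e i) ∧
      2 * T = dgr (codim i) (n i) (e i) + Ni i ∧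
      ‖fe x‖ ^ N * ρ ^ (dv * Bi i) ≤ ρ ^ (dv * (f * N * T)) := by
    intro i
    have h1 := hex i
    rcases h2 : e i with k' | x'
    · -- algebraic classes
      rw [h2] at h1
      have h3 : d i ∣ j i := (Nat.modEq_zero_iff_dvd).1 h1.symm
      have h4 : i ∉ I := (hj i).1 h3
      refine ⟨((Fintype.card κv : ℕ) : AA) ^ codim i k', codim i k', ?_, ?_, ?_⟩
      · push_cast
        rfl
      · simp only [hNi]
        rw [if_neg h4, add_zero]
        rfl
      · simp only [hBi]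
        rw [if_neg h4, mul_zero, pow_zero, mul_one, map_pow, map_natCast, norm_pow, hQ, ← pow_mul,
          ← pow_mul]
        refine le_of_eq ?_
        congr 1
        ring
    · rw [h2] at h1
      have h3 : ¬ d i ∣ j i := by
        intro h4
        have h5 : ε i x' ≡ 0 [MOD d i] := h1.trans ((Nat.modEq_zero_iff_dvd).2 h4)
        exact hε i x' ((Nat.modEq_zero_iff_dvd).1 h5)
      have h4 : i ∈ I := by
        by_contra h5
        exact h3 ((hj i).2 h5)
      obtain ⟨hx, hx2⟩ := est_one (hd i) (hd0 i) κ hf (hz i) hR eκ (hΩ i) (hΩz i) κv hdv (l i)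
        (a i) (ha i) (hspec i) h3 (e := x') h1 fe (hj' i h4).1 (hj' i h4).2
      refine ⟨⟨α i x', hx⟩, n i + 1, rfl, ?_, ?_⟩
      · simp only [hNi]
        rw [if_pos h4]
        show 2 * (n i + 1) = n i + (n i + 2)
        ring
      · simp only [hBi]
        rw [if_pos h4]
        have h5 := pow_le_pow_left₀ (mul_nonneg (pow_nonneg (norm_nonneg _) _)
          (pow_nonneg hρ0.le _)) hx2 (N / d i)
        have h6 : d i * (N / d i) = N := Nat.mul_div_cancel' (hdN i)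
        rw [mul_pow, ← pow_mul, ← pow_mul, ← pow_mul, h6] at h5
        refine le_trans (le_of_eq ?_) (h5.trans (le_of_eq ?_))
        · congr 2
          ring
        · congr 1
          calc dv * (f * (n i + 1) * d i) * (N / d i) = dv * (f * (n i + 1) * (d i * (N / d i))) := by
                ring
            _ = dv * (f * N * (n i + 1)) := by rw [h6]; ring
  choose x T hx1 hx2 hx3 using hfac
  -- the factor of Y
  obtain ⟨y, hy1, hy2⟩ : ∃ y : AA, (y : ℂ) = β ∧ ‖fe y‖ ≤ ρ ^ (dv * (f * (dY - D))) := by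
    set γ := β / (Fintype.card κv : ℂ) ^ (dY - D) with hγ
    have hQ0 : (Fintype.card κv : ℂ) ≠ 0 := by exact_mod_cast Fintype.card_ne_zero
    have hγA : γ ∈ AA := mem_algebraicClosure_iff.mpr (hY.tower_top (A := ℚ)).isAlgebraic
    have hint : IsIntegral ℤ (⟨γ, hγA⟩ : AA) := by
      have h1 : IsIntegral ℤ (algebraMap AA ℂ ⟨γ, hγA⟩) := hY
      exact (isIntegral_algebraMap_iff (algebraMap AA ℂ).injective).1 h1
    have h2 : ‖fe ⟨γ, hγA⟩‖ ≤ 1 :=
      norm_int_le (hint.map (fe : AA →+* PadicAlgCl c).toIntAlgHom)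
    refine ⟨⟨γ, hγA⟩ * ((Fintype.card κv : ℕ) : AA) ^ (dY - D), ?_, ?_⟩
    · push_cast
      rw [hγ, div_mul_cancel₀ _ (pow_ne_zero _ hQ0)]
    · rw [map_mul, norm_mul, map_pow, map_natCast, norm_pow, hQ, ← pow_mul]
      refine (mul_le_of_le_one_left (pow_nonneg hρ0.le _) h2).trans (le_of_eq ?_)
      congr 1
      ring
  refine ⟨(∏ i, x i) * y, ?_, ?_⟩
  · rw [← IntermediateField.algebraMap_apply, map_mul, map_prod]
    congr 1
    exact prod_congr rfl fun i _ => hx1 i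
  · rw [map_mul, norm_mul, map_prod, norm_prod]
    refine arith hρ0 hρ1 hN (fun i => i ∈ I) (fun i => norm_nonneg _) hx3 hx2 (norm_nonneg _) hy2
      hdeg hw hδ ?_
    rw [← sum_filter, ← sum_filter, filter_mem_eq_inter, univ_inter]
    exact hlt

end point

end Pool.Agent.N876.UV
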