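import Pool.Agent.N876.UV.Fam

/-!
# Orders of Euler products
-/

set_option autoImplicit false

namespace Pool.Agent.N876.UV

open Finset Polynomial

/-- the order of the Euler product at `t` -/
def OrderAt {P : Type} (p : P → ℂ[X]) (t : ℂ) (o : ℤ) : Prop :=
  ∃ L : PowerSeries ℂ, IsEuler p L ∧ HasOrder L t o

/-- the Euler product is a rational function -/
def IsRat {P : Type} (p : P → ℂ[X]) : Prop :=
  ∃ (L : PowerSeries ℂ) (A B : ℂ[X]), IsEuler p L ∧ A ≠ 0 ∧ B ≠ 0 ∧ (B : PowerSeries ℂ) * L = A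

variable {P : Type}

theorem orderAt_one (t : ℂ) : OrderAt (fun _ : P => (1 : ℂ[X])) t 0 := by
  refine ⟨1, ?_, 1, 1, one_ne_zero, one_ne_zero, ?_, ?_⟩
  · intro n
    refine ⟨∅, fun s' _ => ?_⟩
    rw [prod_congr rfl fun v _ => Polynomial.coe_one, prod_const_one, mul_one, sub_self]
    exact dvd_zero _
  · rw [mul_one]
  · rw [sub_self]

theorem orderAt_mul {p p' : P → ℂ[X]} {t : ℂ} {o o' : ℤ} (h : OrderAt p t o)
    (h' : OrderAt p' t o') : OrderAt (fun v => p v * p' v) t (o + o') := by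
  classical
  obtain ⟨L, hL, A, B, hA, hB, hAB, hn⟩ := h
  obtain ⟨L', hL', A', B', hA', hB', hAB', hn'⟩ := h'
  refine ⟨L * L', ?_, A * A', B * B', mul_ne_zero hA hA', mul_ne_zero hB hB', ?_, ?_⟩
  · intro n
    obtain ⟨s, hs⟩ := hL n
    obtain ⟨s', hs'⟩ := hL' n
    refine ⟨s ∪ s', fun u hu => ?_⟩
    have h1 := hs u (subset_union_left.trans hu)
    have h2 := hs' u (subset_union_right.trans hu)
    have h3 : L * L' * ∏ v ∈ u, ((p v * p' v : ℂ[X]) : PowerSeries ℂ) - 1 =
        (L * ∏ v ∈ u, (p v : PowerSeries ℂ) - 1) * (L' * ∏ v ∈ u, (p' v : PowerSeries ℂ)) +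
          (L' * ∏ v ∈ u, (p' v : PowerSeries ℂ) - 1) := by
      rw [prod_congr rfl fun v _ => Polynomial.coe_mul (p v) (p' v), prod_mul_distrib]
      ring
    rw [h3]
    exact dvd_add (h1.mul_right _) h2
  · rw [Polynomial.coe_mul, Polynomial.coe_mul, ← hAB, ← hAB']
    ring
  · rw [rootMultiplicity_mul (mul_ne_zero hA hA'), rootMultiplicity_mul (mul_ne_zero hB hB'),
      ← hn, ← hn']
    push_cast
    ring

theorem orderAt_prod {J : Type} (S : Finset J) {p : J → P → ℂ[X]} {t : ℂ} {o : J → ℤ}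
    (h : ∀ j ∈ S, OrderAt (p j) t (o j)) :
    OrderAt (fun v => ∏ j ∈ S, p j v) t (∑ j ∈ S, o j) := by
  classical
  induction S using Finset.induction_on with
  | empty =>
    simp only [prod_empty, sum_empty]
    exact orderAt_one t
  | insert a s ha ih =>
    rw [sum_insert ha]
    have h1 := orderAt_mul (h a (mem_insert_self _ _)) (ih fun j hj => h j (mem_insert_of_mem hj))
    have h2 : (fun v => ∏ j ∈ insert a s, p j v) = fun v => p a v * ∏ j ∈ s, p j v := by
      funext v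
      rw [prod_insert ha]
    rw [h2]
    exact h1

theorem coe_comp (b : ℂ) (p : ℂ[X]) :
    ((p.comp (C b * X) : ℂ[X]) : PowerSeries ℂ) = PowerSeries.rescale b (p : PowerSeries ℂ) := by
  ext1 n
  rw [PowerSeries.coeff_rescale, Polynomial.coeff_coe, Polynomial.coeff_coe,
    comp_C_mul_X_coeff, mul_comm]

theorem orderAt_rescale {p : P → ℂ[X]} {b t : ℂ} (hb : b ≠ 0) {o : ℤ} (h : OrderAt p (b * t) o) :
    OrderAt (fun v => (p v).comp (C b * X)) t o := by
  obtain ⟨L, hL, A, B, hA, hB, hAB, hn⟩ := h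
  have hroot : ∀ Q : ℂ[X], (Q.comp (C b * X)).rootMultiplicity t = Q.rootMultiplicity (b * t) := by
    intro Q
    have h1 := rootMultiplicity_comp_C_mul_X_add_C Q b 0 t (isUnit_iff_ne_zero.2 hb)
    rw [map_zero, add_zero, add_zero] at h1
    exact h1
  have hne : ∀ Q : ℂ[X], Q ≠ 0 → Q.comp (C b * X) ≠ 0 := by
    intro Q hQ h0
    apply hQ
    ext1 n
    have h1 := congrArg (fun Q => Polynomial.coeff Q n) h0
    simp only [comp_C_mul_X_coeff, coeff_zero] at h1
    rw [coeff_zero]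
    exact (mul_eq_zero.1 h1).resolve_right (pow_ne_zero _ hb)
  refine ⟨PowerSeries.rescale b L, ?_, A.comp (C b * X), B.comp (C b * X), hne A hA, hne B hB, ?_,
    ?_⟩
  · intro n
    obtain ⟨s, hs⟩ := hL n
    refine ⟨s, fun u hu => ?_⟩
    have h1 := hs u hu
    rw [prod_congr rfl fun v _ => coe_comp b (p v), ← map_prod, ← map_mul,
      ← map_one (PowerSeries.rescale b), ← map_sub]
    rw [PowerSeries.X_pow_dvd_iff] at h1 ⊢
    intro m hm
    rw [PowerSeries.coeff_rescale, h1 m hm, mul_zero]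
  · rw [coe_comp, coe_comp, ← map_mul, hAB]
  · rw [hroot, hroot]
    exact hn

end Pool.Agent.N876.UV
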