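import Mathlib

/-!
# Power series with small coefficients which are rational functions
-/

set_option autoImplicit false

namespace Pool.Agent.N876.UV

open Finset Polynomial

section defs

/-- the Euler product -/
def IsEuler {P : Type} (p : P → ℂ[X]) (L : PowerSeries ℂ) : Prop :=
  ∀ n : ℕ, ∃ s : Finset P, ∀ s' : Finset P, s ⊆ s' →
    (PowerSeries.X : PowerSeries ℂ) ^ n ∣ L * ∏ v ∈ s', (p v : PowerSeries ℂ) - 1

/-- the order of vanishing -/
def HasOrder (L : PowerSeries ℂ) (t : ℂ) (n : ℤ) : Prop :=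
  ∃ A B : ℂ[X], A ≠ 0 ∧ B ≠ 0 ∧ (B : PowerSeries ℂ) * L = A ∧
    (A.rootMultiplicity t : ℤ) - B.rootMultiplicity t = n

end defs

/-! ### rational functions -/

variable {K : Type*} [NormedField K] [IsUltrametricDist K]

/-- the truncation of the product -/
theorem sub_trunc {F : Type*} [Field F] {A B : F[X]} {L : PowerSeries F}
    (h : (B : PowerSeries F) * L = A) (M : ℕ) (k : ℕ) :
    (A - B * PowerSeries.trunc (M + 1) L).coeff k =
      ∑ x ∈ antidiagonal k, if x.2 ≤ M then 0 else B.coeff x.1 * PowerSeries.coeff x.2 L := by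
  have h1 := congrArg (PowerSeries.coeff k) h
  rw [PowerSeries.coeff_mul, Polynomial.coeff_coe] at h1
  rw [coeff_sub, ← h1, Polynomial.coeff_mul, ← sum_sub_distrib]
  refine sum_congr rfl fun x _ => ?_
  rw [PowerSeries.coeff_trunc, Polynomial.coeff_coe]
  split_ifs with h2 h3 h3
  · rw [sub_self]
  · omega
  · omega
  · rw [mul_zero, sub_zero]

/-- the key lemma: no zeros and no poles in the domain of convergence -/
theorem key {A B : K[X]} (hAB : IsCoprime A B) {L : PowerSeries K} (h : (B : PowerSeries K) * L = A)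
    (h0 : PowerSeries.coeff 0 L = 1) {r : ℝ} (hr : 0 ≤ r)
    (hL : ∀ n, ‖PowerSeries.coeff n L‖ ≤ r ^ n) {t : K} (ht : r * ‖t‖ < 1) :
    A.eval t ≠ 0 ∧ B.eval t ≠ 0 := by
  classical
  have hrt : 0 ≤ r * ‖t‖ := mul_nonneg hr (norm_nonneg t)
  -- the partial sums have norm one
  have hS : ∀ M, ‖(PowerSeries.trunc (M + 1) L).eval t‖ = 1 := by
    intro M
    have h1 : (PowerSeries.trunc (M + 1) L).eval t =
        1 + ∑ i ∈ range M, PowerSeries.coeff (i + 1) L * t ^ (i + 1) := by
      rw [Polynomial.eval_eq_sum_range' (PowerSeries.natDegree_trunc_lt L M), Finset.sum_range_succ',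
        PowerSeries.coeff_trunc, if_pos (Nat.succ_pos M), h0, pow_zero, one_mul, add_comm]
      congr 1
      refine sum_congr rfl fun i hi => ?_
      rw [mem_range] at hi
      rw [PowerSeries.coeff_trunc, if_pos (by omega)]
    have h2 : ‖∑ i ∈ range M, PowerSeries.coeff (i + 1) L * t ^ (i + 1)‖ < 1 := by
      rcases (range M).eq_empty_or_nonempty with h3 | h3
      · rw [h3, sum_empty, norm_zero]
        exact one_pos
      · obtain ⟨i, _, hi⟩ := IsUltrametricDist.exists_norm_finsetSum_le_of_nonempty h3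
          (fun i => PowerSeries.coeff (i + 1) L * t ^ (i + 1))
        refine lt_of_le_of_lt hi ?_
        rw [norm_mul, norm_pow]
        refine lt_of_le_of_lt (mul_le_mul_of_nonneg_right (hL _) (pow_nonneg (norm_nonneg _) _)) ?_
        rw [← mul_pow]
        exact pow_lt_one₀ hrt ht (Nat.succ_ne_zero i)
    rw [h1]
    have h3 : ‖(1 : K)‖ ≠ ‖∑ i ∈ range M, PowerSeries.coeff (i + 1) L * t ^ (i + 1)‖ := by
      rw [norm_one]
      exact h2.ne'
    rw [IsUltrametricDist.norm_add_eq_max_of_norm_ne_norm h3, norm_one, max_eq_left h2.le]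
  -- the constant
  obtain ⟨C0, hC0⟩ : ∃ C0 : ℝ, ∀ i, ‖B.coeff i * t ^ i‖ ≤ C0 ∧ 0 ≤ C0 := by
    refine ⟨∑ i ∈ B.support, ‖B.coeff i * t ^ i‖, fun i => ?_⟩
    have h1 : 0 ≤ ∑ i ∈ B.support, ‖B.coeff i * t ^ i‖ := sum_nonneg fun i _ => norm_nonneg _
    refine ⟨?_, h1⟩
    by_cases hi : i ∈ B.support
    · exact single_le_sum (f := fun i => ‖B.coeff i * t ^ i‖) (fun i _ => norm_nonneg _) hi
    · rw [notMem_support_iff.1 hi, zero_mul, norm_zero]
      exact h1
  have hC00 : 0 ≤ C0 := (hC0 0).2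
  -- the difference tends to zero
  have hD : ∀ M, ‖A.eval t - B.eval t * (PowerSeries.trunc (M + 1) L).eval t‖ ≤
      C0 * (r * ‖t‖) ^ (M + 1) := by
    intro M
    have h1 : A.eval t - B.eval t * (PowerSeries.trunc (M + 1) L).eval t =
        (A - B * PowerSeries.trunc (M + 1) L).eval t := by
      rw [eval_sub, eval_mul]
    rw [h1, eval_eq_sum, Polynomial.sum]
    refine IsUltrametricDist.norm_sum_le_of_forall_le_of_nonneg
      (mul_nonneg hC00 (pow_nonneg hrt _)) fun k _ => ?_
    rw [sub_trunc h M k, sum_mul]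
    refine IsUltrametricDist.norm_sum_le_of_forall_le_of_nonneg
      (mul_nonneg hC00 (pow_nonneg hrt _)) fun x hx => ?_
    split_ifs with h2
    · rw [zero_mul, norm_zero]
      exact mul_nonneg hC00 (pow_nonneg hrt _)
    · have h3 := mem_antidiagonal.1 hx
      have h4 : B.coeff x.1 * PowerSeries.coeff x.2 L * t ^ k =
          (B.coeff x.1 * t ^ x.1) * (PowerSeries.coeff x.2 L * t ^ x.2) := by
        rw [← h3, pow_add]
        ring
      rw [h4, norm_mul]
      refine mul_le_mul (hC0 x.1).1 ?_ (norm_nonneg _) hC00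
      rw [norm_mul, norm_pow]
      refine (mul_le_mul_of_nonneg_right (hL _) (pow_nonneg (norm_nonneg _) _)).trans ?_
      rw [← mul_pow]
      exact pow_le_pow_of_le_one hrt ht.le (by omega)
  have hlim : Filter.Tendsto (fun M : ℕ => C0 * (r * ‖t‖) ^ (M + 1)) Filter.atTop (nhds 0) := by
    have h1 := (tendsto_pow_atTop_nhds_zero_of_lt_one hrt ht).const_mul C0
    rw [mul_zero] at h1
    exact h1.comp (Filter.tendsto_add_atTop_nat 1)
  have hA : A.eval t = 0 → B.eval t = 0 := by
    intro hA0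
    rw [← norm_eq_zero]
    refine le_antisymm (ge_of_tendsto' hlim fun M => ?_) (norm_nonneg _)
    have h1 := hD M
    rwa [hA0, zero_sub, norm_neg, norm_mul, hS, mul_one] at h1
  have hB : B.eval t = 0 → A.eval t = 0 := by
    intro hB0
    rw [← norm_eq_zero]
    refine le_antisymm (ge_of_tendsto' hlim fun M => ?_) (norm_nonneg _)
    have h1 := hD M
    rwa [hB0, zero_mul, sub_zero] at h1
  obtain ⟨u, v, huv⟩ := hAB
  have hcon : ¬ (A.eval t = 0 ∧ B.eval t = 0) := by
    rintro ⟨h1, h2⟩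
    have h3 := congrArg (Polynomial.eval t) huv
    rw [eval_add, eval_mul, eval_mul, h1, h2, mul_zero, mul_zero, add_zero, eval_one] at h3
    exact zero_ne_one h3
  exact ⟨fun h1 => hcon ⟨h1, hA h1⟩, fun h1 => hcon ⟨hB h1, h1⟩⟩

end Pool.Agent.N876.UV
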