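import Pool.Agent.N876.UV.Dsc

/-!
# Frobenius eigenvalues of cyclic coverings, given as families of numbers
-/

set_option autoImplicit false

namespace Pool.Agent.N876.UV

open Finset Polynomial Pool.Agent.N876.TC Pool.Agent.W528.HA Pool.Agent.W528.HB

/-- the root of unity -/
noncomputable def th (N : ℕ) : ℂ := Complex.exp (2 * Real.pi * Complex.I / N)

theorem th_prim {N : ℕ} (hN : 0 < N) : IsPrimitiveRoot (th N) N :=
  Complex.isPrimitiveRoot_exp N hN.ne'

/-- the trace formula -/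
def IsSpec {κ : Type} [Field κ] (N : ℕ) {s n : ℕ} (l : Fin s → Fin (n + 1) → κ) (a : Fin s → ℕ)
    (z : κ) {J : Type} [Fintype J] (α : J → ℂ) (ε : J → ℕ) : Prop :=
  ∀ (L : Type) [Field L] [Fintype L] [Algebra κ L] (i : ℕ),
    ((Fintype.card L : ℂ) - 1) *
        ((-1) ^ n * ∑ e, α e ^ Module.finrank κ L * th N ^ (ε e * i)) =
      (N : ℂ) * (fixCount L l a N z i : ℂ) - (openCount L l a : ℂ)

theorem th_pow_iff {N : ℕ} (hN : 0 < N) (x y : ℕ) : th N ^ x = th N ^ y ↔ x ≡ y [MOD N] := by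
  have hp := th_prim hN
  rw [pow_eq_pow_mod x hp.pow_eq_one, pow_eq_pow_mod y hp.pow_eq_one]
  constructor
  · exact fun h => hp.pow_inj (Nat.mod_lt _ hN) (Nat.mod_lt _ hN) h
  · intro h
    rw [show x % N = y % N from h]

theorem geom_th {N : ℕ} (hN : 0 < N) (x y : ℕ) :
    ∑ i ∈ range N, ((th N ^ y)⁻¹) ^ i * th N ^ (x * i) = if x ≡ y [MOD N] then (N : ℂ) else 0 := by
  have hp := th_prim hN
  have h0 : th N ≠ 0 := hp.ne_zero hN.ne'
  have h1 : ∀ i, ((th N ^ y)⁻¹) ^ i * th N ^ (x * i) = ((th N ^ y)⁻¹ * th N ^ x) ^ i := by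
    intro i
    rw [mul_pow, pow_mul]
  rw [sum_congr rfl fun i _ => h1 i]
  split_ifs with h
  · have h2 : th N ^ x = th N ^ y := (th_pow_iff hN x y).2 h
    rw [h2, inv_mul_cancel₀ (pow_ne_zero _ h0)]
    simp
  · have h2 : (th N ^ y)⁻¹ * th N ^ x ≠ 1 := by
      intro h3
      apply h
      rw [inv_mul_eq_one₀ (pow_ne_zero _ h0)] at h3
      exact (th_pow_iff hN x y).1 h3.symm
    have h3 := mul_geom_sum ((th N ^ y)⁻¹ * th N ^ x) N
    have h4 : ((th N ^ y)⁻¹ * th N ^ x) ^ N = 1 := by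
      rw [mul_pow, inv_pow, ← pow_mul, ← pow_mul, mul_comm y, mul_comm x, pow_mul, pow_mul,
        hp.pow_eq_one, one_pow, one_pow, inv_one, one_mul]
    rw [h4, sub_self] at h3
    exact (mul_eq_zero.1 h3).resolve_left (sub_ne_zero.2 h2)

open Classical in
/-- the trace formula for the part with a given exponent -/
theorem spec_kum {κ : Type} [Field κ] {N : ℕ} (hN : 0 < N) {s n : ℕ}
    {l : Fin s → Fin (n + 1) → κ} {a : Fin s → ℕ} {z : κ} (hz : IsPrimitiveRoot z N)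
    {J : Type} [Fintype J] {α : J → ℂ} {ε : J → ℕ} (h : IsSpec N l a z α ε) {j : ℕ}
    (hj : ¬ N ∣ j) (L : Type) [Field L] [Fintype L] [Algebra κ L] :
    ((Fintype.card L : ℂ) - 1) * ((-1) ^ n *
        ∑ e ∈ univ.filter (fun e => ε e ≡ j [MOD N]), α e ^ Module.finrank κ L) =
      kummerSum L ℂ N (n + 1) (fun i k => algebraMap κ L (l i k)) a (algebraMap κ L z)
        (th N ^ j)⁻¹ := by
  have hp := th_prim hN
  have hω1 : (th N ^ j)⁻¹ ≠ 1 := by
    intro h0
    rw [inv_eq_one] at h0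
    exact hj ((hp.pow_eq_one_iff_dvd j).1 h0)
  have h0 : ∑ i ∈ range N, ((th N ^ j)⁻¹) ^ i = 0 := by
    have h2 := mul_geom_sum ((th N ^ j)⁻¹) N
    rw [inv_pow, ← pow_mul, mul_comm j, pow_mul, hp.pow_eq_one, one_pow, inv_one, sub_self] at h2
    exact (mul_eq_zero.1 h2).resolve_left (sub_ne_zero.2 hω1)
  have hNE : (N : ℂ) ≠ 0 := by exact_mod_cast hN.ne'
  apply mul_left_cancel₀ hNE
  rw [← sum_fix hN l a hz (th N ^ j)⁻¹]
  have h1 : (N : ℂ) * ∑ e ∈ univ.filter (fun e => ε e ≡ j [MOD N]), α e ^ Module.finrank κ L =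
      ∑ i ∈ range N, ((th N ^ j)⁻¹) ^ i * ∑ e, α e ^ Module.finrank κ L * th N ^ (ε e * i) := by
    calc (N : ℂ) * ∑ e ∈ univ.filter (fun e => ε e ≡ j [MOD N]), α e ^ Module.finrank κ L
        = ∑ e, α e ^ Module.finrank κ L *
            ∑ i ∈ range N, ((th N ^ j)⁻¹) ^ i * th N ^ (ε e * i) := by
          rw [sum_filter, mul_sum]
          refine sum_congr rfl fun e _ => ?_
          rw [geom_th hN]
          split_ifs
          · ring
          · ring
      _ = ∑ i ∈ range N, ∑ e, α e ^ Module.finrank κ L *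
            (((th N ^ j)⁻¹) ^ i * th N ^ (ε e * i)) := by
          rw [sum_comm]
          exact sum_congr rfl fun e _ => by rw [mul_sum]
      _ = _ := by
          refine sum_congr rfl fun i _ => ?_
          rw [mul_sum]
          exact sum_congr rfl fun e _ => by ring
  calc (N : ℂ) * (((Fintype.card L : ℂ) - 1) * ((-1) ^ n *
        ∑ e ∈ univ.filter (fun e => ε e ≡ j [MOD N]), α e ^ Module.finrank κ L))
      = ((Fintype.card L : ℂ) - 1) * ((-1) ^ n * ((N : ℂ) *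
        ∑ e ∈ univ.filter (fun e => ε e ≡ j [MOD N]), α e ^ Module.finrank κ L)) := by ring
    _ = ∑ i ∈ range N, ((th N ^ j)⁻¹) ^ i * (((Fintype.card L : ℂ) - 1) * ((-1) ^ n *
          ∑ e, α e ^ Module.finrank κ L * th N ^ (ε e * i))) := by
        rw [h1, mul_sum, mul_sum]
        exact sum_congr rfl fun i _ => by ring
    _ = ∑ i ∈ range N, ((N : ℂ) * (((th N ^ j)⁻¹) ^ i * (fixCount L l a N z i : ℂ))
          + ((th N ^ j)⁻¹) ^ i * (-(openCount L l a : ℂ))) :=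
        sum_congr rfl fun i _ => by rw [h L i]; ring
    _ = _ := by
        rw [sum_add_distrib, ← sum_mul, h0, zero_mul, add_zero, mul_sum]

theorem th_mem {N : ℕ} (hN : 0 < N) : th N ∈ AA := by
  have h3 : IsIntegral ℤ (th N) := (th_prim hN).isIntegral hN
  exact mem_algebraicClosure_iff.mpr (h3.tower_top (A := ℚ)).isAlgebraic

/-- the inverse of a power of the root of unity, as an algebraic number -/
noncomputable def mu {N : ℕ} (hN : 0 < N) (j : ℕ) : AA := ((⟨th N, th_mem hN⟩ : AA) ^ j)⁻¹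

theorem mu_coe {N : ℕ} (hN : 0 < N) (j : ℕ) : ((mu hN j : AA) : ℂ) = (th N ^ j)⁻¹ := by
  unfold mu
  push_cast
  rfl

variable {c : ℕ} [Fact c.Prime]

/-- the estimate -/
theorem spec_slope {N : ℕ} (hN : 2 ≤ N) (κ : Type) [Field κ] [Fintype κ] [CharP κ c] {f : ℕ}
    (hf : Fintype.card κ = c ^ f) {z : κ} (hz : IsPrimitiveRoot z N)
    {k : Type} [Field k] [IsAlgClosed k] [CharP k c] {R : Subring (PadicAlgCl c)} {res : R →+* k}
    (hR : IsRes c R res) (eκ : κ →+* k) {Ω : PadicAlgCl c} (hΩ : IsPrimitiveRoot Ω N)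
    (hΩz : ∃ h : Ω ∈ R, res ⟨Ω, h⟩ = eκ z)
    {s n : ℕ} (l : Fin s → Fin (n + 1) → κ) (a : Fin s → ℕ) (ha : ∀ i, (a i).Coprime N)
    {J : Type} [Fintype J] {α : J → ℂ} {ε : J → ℕ} (h : IsSpec N l a z α ε) {j0 : ℕ}
    (hj0 : ¬ N ∣ j0) {e : J} (he : ε e ≡ j0 [MOD N]) (hN0 : 0 < N) :
    ∃ hx : α e ∈ AA, ∀ (fe : AA →+* PadicAlgCl c) (j : ℕ), ¬ N ∣ j → fe (mu hN0 j0) = Ω ^ j →
        ‖fe ⟨α e, hx⟩‖ ^ N
            * ‖((c : ℕ) : PadicAlgCl c)‖ ^ (∑ i, ∑ t ∈ range f, (j * a i * c ^ t) % N)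
          ≤ ‖((c : ℕ) : PadicAlgCl c)‖ ^ (f * (n + 1) * N) := by
  classical
  by_cases hα : α e = 0
  · have h0 : α e ∈ AA := by rw [hα]; exact zero_mem _
    refine ⟨h0, fun fe j _ _ => ?_⟩
    have h1 : (⟨α e, h0⟩ : AA) = 0 := Subtype.ext hα
    rw [h1, map_zero, norm_zero, zero_pow (by omega), zero_mul]
    exact pow_nonneg (norm_nonneg _) _
  · set F := univ.filter (fun e => ε e ≡ j0 [MOD N] ∧ α e ≠ 0) with hF
    have hsl := slope hN κ hf hz hR eκ hΩ hΩz l a ha (μ := (mu hN0 j0 : AA)) n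
      (F.image α) (fun x => (F.filter fun e => α e = x).card) (by
        intro x hx
        obtain ⟨e', he', rfl⟩ := mem_image.1 hx
        refine ⟨(mem_filter.1 he').2.2, ?_⟩
        exact card_pos.2 ⟨e', mem_filter.2 ⟨he', rfl⟩⟩) (by
        intro L _ _ _
        rw [mu_coe, ← spec_kum hN0 hz h hj0 L]
        congr 2
        rw [sum_filter]
        have h1 : ∀ x ∈ F.image α, (((F.filter fun e => α e = x).card : ℕ) : ℂ) *
            x ^ Module.finrank κ L = ∑ e ∈ F with α e = x, α e ^ Module.finrank κ L := by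
          intro x _
          rw [card_eq_sum_ones, Nat.cast_sum, sum_mul]
          refine sum_congr rfl fun e he => ?_
          rw [(mem_filter.1 he).2, Nat.cast_one, one_mul]
        rw [sum_congr rfl h1, sum_fiberwise_of_maps_to (fun e he => mem_image_of_mem α he), hF,
          sum_filter]
        refine sum_congr rfl fun e _ => ?_
        by_cases h2 : ε e ≡ j0 [MOD N]
        · by_cases h3 : α e = 0
          · rw [if_neg (fun h4 => h4.2 h3), if_pos h2, h3, zero_pow Module.finrank_pos.ne']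
          · rw [if_pos ⟨h2, h3⟩, if_pos h2]
        · rw [if_neg (fun h4 => h2 h4.1), if_neg h2]) (x := α e)
        (mem_image_of_mem α (mem_filter.2 ⟨mem_univ _, he, hα⟩))
    exact hsl

end Pool.Agent.N876.UV
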