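import Pool.Agent.N876.UV.Ord

/-!
# Families: orders
-/

set_option autoImplicit false

namespace Pool.Agent.N876.UV

open Finset Polynomial Pool.Agent.N876.TC Pool.Agent.W528.HA Pool.Agent.W528.HB

section defs

variable {ι : Type} [Fintype ι] [DecidableEq ι] {P : Type} (dg : P → ℕ) (Q : P → ℕ) (n d : ι → ℕ)
  {K : ι → Type} [∀ i, Fintype (K i)] (codim : ∀ i, K i → ℕ)
  {J : ι → P → Type} [∀ i v, Fintype (J i v)] (α : ∀ i v, J i v → ℂ) (ε : ∀ i v, J i v → ℕ)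
  {JY : P → Type} [∀ v, Fintype (JY v)] (dY : ∀ v, JY v → ℕ) (β : ∀ v, JY v → ℂ)

/-- the degree of an index -/
def dd {v : P} (E : (∀ i, K i ⊕ J i v) × JY v) : ℕ :=
  ∑ i, dgr (codim i) (n i) (E.1 i) + dY v E.2

/-- the eigenvalue of an index -/
noncomputable def ee {v : P} (E : (∀ i, K i ⊕ J i v) × JY v) : ℂ :=
  (∏ i, eg (Q v) (codim i) (α i v) (E.1 i)) * β v E.2

/-- the Euler factors of the cohomology of degree `nn` -/
noncomputable def tot (nn : ℕ) (v : P) : ℂ[X] :=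
  fac (fun E : (∀ i, K i ⊕ J i v) × JY v => dd n codim dY E = nn) (ee Q codim α β) (dg v)

/-- the isotypic part -/
noncomputable def prt (nn : ℕ) (j : ι → ℕ) (v : P) : ℂ[X] :=
  fac (fun E : (∀ i, K i ⊕ J i v) × JY v => dd n codim dY E = nn ∧
    ∀ i, exq (ε i v) (E.1 i) ≡ j i [MOD d i]) (ee Q codim α β) (dg v)

/-- the Euler factors of `Y` -/
noncomputable def yp (m : ℕ) (v : P) : ℂ[X] := fac (fun y : JY v => dY v y = m) (β v) (dg v)

end defs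

theorem Bd.fac {K : Type*} [NormedField K] [IsUltrametricDist K] {fe : AA →+* K} {r : ℝ}
    (hr : 0 ≤ r) {J : Type} [Fintype J] {p : J → Prop} {b : J → ℂ} {d : ℕ}
    (h : ∀ e, p e → Bd fe r ((1 - C (b e) * X ^ d : ℂ[X]) : PowerSeries ℂ)) :
    Bd fe r (fac p b d : PowerSeries ℂ) := by
  rw [fac_coe]
  exact Bd.prod hr _ fun e he => h e (mem_fs.1 he)

variable {c : ℕ} [Fact c.Prime]

theorem part_order {ι : Type} [Fintype ι] [DecidableEq ι] {κ : Type} [Field κ] [Fintype κ] [CharP κ c]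
    {f : ℕ} (hf : Fintype.card κ = c ^ f) {N : ℕ} (hN : 0 < N) {d n s : ι → ℕ}
    (hd : ∀ i, 2 ≤ d i) (hdN : ∀ i, d i ∣ N) {a : ∀ i, Fin (s i) → ℕ}
    (ha : ∀ i k, (a i k).Coprime (d i)) {z : ι → κ} (hz : ∀ i, IsPrimitiveRoot (z i) (d i))
    {P : Type} {dg : P → ℕ} {res : P → Type} [∀ v, Field (res v)] [∀ v, Fintype (res v)]
    [∀ v, Algebra κ (res v)] (hres : ∀ v, Module.finrank κ (res v) = dg v)
    (l : ∀ i v, Fin (s i) → Fin (n i + 1) → res v)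
    {K : ι → Type} [∀ i, Fintype (K i)] {codim : ∀ i, K i → ℕ}
    {J : ι → P → Type} [∀ i v, Fintype (J i v)] {α : ∀ i v, J i v → ℂ} {ε : ∀ i v, J i v → ℕ}
    (hε : ∀ i v e, ¬ d i ∣ ε i v e)
    (hspec : ∀ i v, IsSpec (d i) (l i v) (a i) (algebraMap κ (res v) (z i)) (α i v) (ε i v))
    {JY : P → Type} [∀ v, Fintype (JY v)] {dY : ∀ v, JY v → ℕ} {β : ∀ v, JY v → ℂ} {D : ℕ}
    (hY : ∀ v y, IsIntegral ℤ (β v y / (Fintype.card (res v) : ℂ) ^ (dY v y - D)))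
    {e0 δ : ℕ} (hδ : δ = D + e0) {I : Finset ι} (hsmall : SmallI c f N δ d n s a I)
    {j : ι → ℕ} (hj : ∀ i, d i ∣ j i ↔ i ∉ I) {nn w : ℕ} (hw : 2 * w ≤ nn + e0)
    {ζ : ℂ} {m : ℕ} (hm : 0 < m) (hζ : ζ ^ m = 1)
    (h : IsRat (prt dg (fun v => Fintype.card (res v)) n d codim α ε dY β nn j)) :
    OrderAt (prt dg (fun v => Fintype.card (res v)) n d codim α ε dY β nn j)
      (ζ / (Fintype.card κ : ℂ) ^ w) 0 := by
  obtain ⟨L, A, B, hL, hA, hB, hAB⟩ := h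
  refine ⟨L, hL, A, B, hA, hB, hAB, ?_⟩
  rw [sub_eq_zero, Nat.cast_inj]
  have hd0 : ∀ i, 0 < d i := fun i => by have := hd i; omega
  obtain ⟨k, _, R, rs, _, _, hR⟩ := Pool.Agent.W999.HB.TP.main c
  have _ : Algebra (ZMod c) κ := ZMod.algebra κ c
  have _ : Algebra (ZMod c) k := ZMod.algebra k c
  have hκk : Nonempty (κ →ₐ[ZMod c] k) := ⟨IsAlgClosed.lift⟩
  obtain ⟨eκ'⟩ := hκk
  set eκ : κ →+* k := (eκ' : κ →+* k)
  have hOm : ∀ i, ∃ Ω : PadicAlgCl c, IsPrimitiveRoot Ω (d i) ∧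
      ∃ h : Ω ∈ R, rs ⟨Ω, h⟩ = eκ (z i) := fun i => exists_Om (hd i) hf (hz i) hR eκ
  choose Ω hΩ hΩz using hOm
  obtain ⟨fe, j', hj', hlt⟩ := exists_fe hN hd0 hdN hsmall hΩ j
    (fun i hi h0 => (hj i).1 h0 hi)
  set ρ := ‖((c : ℕ) : PadicAlgCl c)‖ with hρ
  have hρ0 : 0 < ρ := norm_c_pos
  have hρ1 : ρ < 1 := norm_c_lt
  set e1 := 2 * (f * N * w) + 1 with he1
  set r : ℝ := (ρ ^ e1) ^ (((2 * N : ℕ) : ℝ)⁻¹) with hr
  have hr0 : 0 ≤ r := Real.rpow_nonneg (pow_nonneg hρ0.le _) _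
  have hrN : r ^ (2 * N) = ρ ^ e1 :=
    Real.rpow_inv_natCast_pow (pow_nonneg hρ0.le _) (by omega)
  -- the coefficients are small
  have hpos : ∀ v, 0 < dg v := by
    intro v
    rw [← hres v]
    have : Module.Finite κ (res v) := .of_finite
    exact Module.finrank_pos
  have hb : ∀ v, Bd fe r (prt dg (fun v => Fintype.card (res v)) n d codim α ε dY β nn j v :
      PowerSeries ℂ) := by
    intro v
    unfold prt
    refine Bd.fac hr0 fun E hE => ?_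
    obtain ⟨hE1, hE2⟩ := hE
    obtain ⟨x, hx1, hx2⟩ := est_point (c := c) hf hN hd hd0 hdN ha hz hR eκ hΩ hΩz (res v) (hres v)
      (fun i => l i v) (fun i e => hε i v e) (fun i => hspec i v) (hY v E.2) hδ hj hj' hlt hw E.1
      hE1 hE2
    have h1 : ee (fun v => Fintype.card (res v)) codim α β E = (x : ℂ) := hx1.symm
    rw [h1]
    refine Bd.lin fe hr0 x (hpos v) ?_
    refine le_of_pow_le_pow_left₀ (n := 2 * N) (by omega) (pow_nonneg hr0 _) ?_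
    rw [← pow_mul r, mul_comm (dg v), pow_mul r, hrN]
    exact hx2
  obtain ⟨hL1, hL2⟩ := Bd.euler hr0 hL hb fun v => fac_coeff_zero _ _ (hpos v)
  -- the point
  have hζA : ζ ∈ AA := by
    refine mem_algebraicClosure_iff.mpr ⟨X ^ m - 1, ?_, ?_⟩
    · exact X_pow_sub_C_ne_zero hm (1 : ℚ)
    · rw [map_sub, map_pow, aeval_X, map_one, hζ, sub_self]
  have hζ1 : ‖fe ⟨ζ, hζA⟩‖ = 1 := by
    refine norm_pow_one (n := m) (by omega) ?_
    rw [← map_pow]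
    have h1 : (⟨ζ, hζA⟩ : AA) ^ m = 1 := Subtype.ext hζ
    rw [h1, map_one]
  set t : AA := ⟨ζ, hζA⟩ / ((Fintype.card κ : ℕ) : AA) ^ w with ht
  have htc : (t : ℂ) = ζ / (Fintype.card κ : ℂ) ^ w := by
    rw [ht]
    push_cast
    rfl
  rw [← htc]
  refine order_zero hr0 hL1 hL2 hA hB hAB ?_
  have hq : ‖((Fintype.card κ : ℕ) : PadicAlgCl c)‖ = ρ ^ f := by
    rw [hf]
    push_cast
    rw [norm_pow]
  rw [ht, map_div₀, norm_div, hζ1, map_pow, map_natCast, norm_pow, hq, ← pow_mul, one_div,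
    mul_inv_lt_iff₀ (pow_pos hρ0 _), one_mul]
  refine lt_of_pow_lt_pow_left₀ (2 * N) (pow_nonneg hρ0.le _) ?_
  rw [hrN, ← pow_mul]
  refine pow_lt_pow_right_of_lt_one₀ hρ0 hρ1 ?_
  rw [he1]
  have h1 : f * w * (2 * N) = 2 * (f * N * w) := by ring
  omega

end Pool.Agent.N876.UV
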